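import Pool.Agent.H14.ND.TaoDefs
import Pool.Agent.H89.ND.Master

/-!
# The several-step inequality from the master identity
-/

set_option autoImplicit false

namespace Pool.Agent.H14.ND

open Finset Pool.Agent.H30 Pool.Agent.H30.PD Pool.Agent.H89.ND

theorem Eb_eq_sum (b : ℕ) (G : ℕ → ℝ) : Eb b G = ∑ q ∈ range (b + 1), bin b q * G q := by
  unfold Eb Sb bin
  rw [Finset.sum_div]
  exact Finset.sum_congr rfl fun q _ => by ring

theorem cnt_le_two (W : Set ℤ) (L : ℕ) (x : ℝ) (hx : 0 ≤ x) :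
    Pool.Agent.H14.ND.cnt (T^[L] ⁻¹' W) x ≤
      (Pool.Agent.H89.ND.cnt W L (0 * x) ((0 + 1) * x) : ℝ) +
      (Pool.Agent.H89.ND.cnt W L (-1 * x) ((-1 + 1) * x) : ℝ) + 1 := by
  classical
  unfold Pool.Agent.H14.ND.cnt Pool.Agent.H89.ND.cnt
  have h : {m : ℤ | m ∈ T^[L] ⁻¹' W ∧ |(m : ℝ)| ≤ x} ⊆
      (((((Ioc ⌊0 * x⌋ ⌊(0 + 1) * x⌋).filter fun m => T^[L] m ∈ W) ∪
        ((Ioc ⌊-1 * x⌋ ⌊(-1 + 1) * x⌋).filter fun m => T^[L] m ∈ W)) ∪ {⌊-x⌋} : Finset ℤ) :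
          Set ℤ) := by
    rintro m ⟨hm, hmx⟩
    rw [abs_le] at hmx
    have h1 : m ≤ ⌊x⌋ := Int.le_floor.mpr hmx.2
    have h2 : ⌊-x⌋ ≤ m := Int.floor_le_iff.mpr (by linarith [hmx.1])
    have e1 : ⌊0 * x⌋ = 0 := by simp
    have e2 : (0 + 1) * x = x := by ring
    have e3 : -1 * x = -x := by ring
    have e4 : ⌊(-1 + 1) * x⌋ = 0 := by simp
    rw [e1, e2, e3, e4]
    simp only [coe_union, coe_filter, coe_singleton, Set.mem_union, Set.mem_setOf_eq, mem_Ioc,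
      Set.mem_singleton_iff]
    rcases lt_trichotomy m ⌊-x⌋ with h3 | h3 | h3
    · omega
    · exact Or.inr h3
    · left
      rcases le_or_gt m 0 with h4 | h4
      · exact Or.inr ⟨⟨h3, h4⟩, hm⟩
      · exact Or.inl ⟨⟨h4, h1⟩, hm⟩
  have h1 := Set.ncard_le_ncard h (Finset.finite_toSet _)
  rw [Set.ncard_coe_finset] at h1
  have h2 := (h1.trans (card_union_le _ _)).trans (Nat.add_le_add_right (card_union_le _ _) _)
  rw [card_singleton] at h2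
  exact_mod_cast h2

theorem two_le_cnt (W : Set ℤ) (L : ℕ) (x : ℝ) (hx : 0 ≤ x) :
    (Pool.Agent.H89.ND.cnt W L (0 * x) ((0 + 1) * x) : ℝ) +
      (Pool.Agent.H89.ND.cnt W L (-1 * x) ((-1 + 1) * x) : ℝ) ≤
      Pool.Agent.H14.ND.cnt (T^[L] ⁻¹' W) x := by
  classical
  unfold Pool.Agent.H14.ND.cnt Pool.Agent.H89.ND.cnt
  have e1 : ⌊0 * x⌋ = 0 := by simp
  have e2 : (0 + 1) * x = x := by ring
  have e3 : -1 * x = -x := by ring
  have e4 : ⌊(-1 + 1) * x⌋ = 0 := by simp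
  rw [e1, e2, e3, e4]
  have hd : Disjoint ((Ioc (0 : ℤ) ⌊x⌋).filter fun m => T^[L] m ∈ W)
      ((Ioc ⌊-x⌋ (0 : ℤ)).filter fun m => T^[L] m ∈ W) := by
    rw [Finset.disjoint_left]
    intro m h1 h2
    rw [mem_filter, mem_Ioc] at h1 h2
    omega
  have h : (((((Ioc (0 : ℤ) ⌊x⌋).filter fun m => T^[L] m ∈ W) ∪
        ((Ioc ⌊-x⌋ (0 : ℤ)).filter fun m => T^[L] m ∈ W)) : Finset ℤ) : Set ℤ) ⊆
      {m : ℤ | m ∈ T^[L] ⁻¹' W ∧ |(m : ℝ)| ≤ x} := by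
    intro m hm
    simp only [coe_union, coe_filter, Set.mem_union, Set.mem_setOf_eq, mem_Ioc] at hm
    rcases hm with ⟨⟨h1, h2⟩, h3⟩ | ⟨⟨h1, h2⟩, h3⟩
    · refine ⟨h3, ?_⟩
      have h4 : (m : ℝ) ≤ x := Int.le_floor.mp h2
      have h5 : (0 : ℝ) < m := by exact_mod_cast h1
      rw [abs_of_pos h5]
      exact h4
    · refine ⟨h3, ?_⟩
      have h4 : -x < (m : ℝ) := Int.floor_lt.mp h1
      have h5 : (m : ℝ) ≤ 0 := by exact_mod_cast h2
      rw [abs_of_nonpos h5]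
      linarith
  have h1 := Set.ncard_le_ncard h ((fin_abs x).subset fun m hm => hm.2)
  rw [Set.ncard_coe_finset, card_union_of_disjoint hd] at h1
  exact_mod_cast h1

theorem multiStep_of_master (B : ℕ) : ∃ C : ℝ, 0 ≤ C ∧ MultiStep B C := by
  obtain ⟨C, hC, H⟩ := master_conv B
  refine ⟨17 + 2 * C, by positivity, ?_⟩
  intro W h b x hh hb hx
  have hx0 : (0 : ℝ) < x := lt_of_lt_of_le (by positivity) hx
  have h0 := H W 0 x h b hh hx
  have h1 := H W (-1) x h b hh hx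
  rw [Eb_eq_sum] at h0 h1
  have h2 := (abs_le.mp h0).2
  have h3 := (abs_le.mp h1).2
  have h4 : F W (h + b) x ≤
      (Pool.Agent.H89.ND.cnt W (h + b) (0 * x) ((0 + 1) * x) : ℝ) / x +
      (Pool.Agent.H89.ND.cnt W (h + b) (-1 * x) ((-1 + 1) * x) : ℝ) / x + 1 / x := by
    unfold F
    rw [← add_div, ← add_div]
    exact div_le_div_of_nonneg_right (cnt_le_two W (h + b) x hx0.le) hx0.le
  have h5 : ∑ q ∈ range (b + 1), bin b q *
        ((Pool.Agent.H89.ND.cnt W h (0 * (3 ^ q * x / 2 ^ b)) ((0 + 1) * (3 ^ q * x / 2 ^ b)) : ℝ) /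
          (3 ^ q * x / 2 ^ b)) +
      ∑ q ∈ range (b + 1), bin b q *
        ((Pool.Agent.H89.ND.cnt W h (-1 * (3 ^ q * x / 2 ^ b)) ((-1 + 1) * (3 ^ q * x / 2 ^ b)) : ℝ) /
          (3 ^ q * x / 2 ^ b)) ≤ ∑ q ∈ range (b + 1), bin b q * F W h (3 ^ q * x / 2 ^ b) := by
    rw [← Finset.sum_add_distrib]
    refine Finset.sum_le_sum fun q _ => ?_
    rw [← mul_add, ← add_div]
    refine mul_le_mul_of_nonneg_left ?_ (bin_nonneg _ _)
    have hy : (0 : ℝ) ≤ 3 ^ q * x / 2 ^ b := by positivity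
    exact div_le_div_of_nonneg_right (two_le_cnt W h _ hy) hy
  have h6 : (1 : ℝ) / x ≤ 2 ^ (h + b) / x :=
    div_le_div_of_nonneg_right (one_le_pow₀ (by norm_num)) hx0.le
  have hb' : (1 : ℝ) ≤ b := by exact_mod_cast hb
  set P := (2 : ℝ) ^ (h + b) / x with hP
  set I := (1 : ℝ) / (h : ℝ) ^ B with hI
  have e5 : 8 * (2 : ℝ) ^ (h + b) / x = 8 * P := by rw [hP]; ring
  have e6 : C / (h : ℝ) ^ B = C * I := by rw [hI]; ring
  rw [e5, e6] at h2 h3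
  have hP0 : 0 ≤ P := by positivity
  have hI0 : 0 ≤ I := by positivity
  have h7 : (17 + 2 * C) * (I + P) ≤ b * (17 + 2 * C) * (I + P) := by
    have : 0 ≤ (17 + 2 * C) * (I + P) := by positivity
    nlinarith
  have h8 : 0 ≤ C * P := by positivity
  nlinarith

end Pool.Agent.H14.ND
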