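import Mathlib

/-!
Soft part of the natural density theorem: a bounded, almost Lipschitz function with
`h v = h (v - log 2) / 2 + h (v + log (3/2)) / 2 + O(v^{-2})` converges.
-/

set_option autoImplicit false

namespace Pool.Agent.H14.ND

open Filter Topology Set

/-- `2^(-1/2) + (3/2)^(1/2) < 2` in exponential form. -/
lemma strict_lam : (Real.exp (-(Real.log 2) / 2) + Real.exp (Real.log (3 / 2) / 2)) / 2 < 1 := by
  have h1 : Real.exp (-(Real.log 2) / 2) ^ 2 = 1 / 2 := by
    rw [← Real.exp_nat_mul]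
    have : ((2 : ℕ) : ℝ) * (-(Real.log 2) / 2) = - Real.log 2 := by push_cast; ring
    rw [this, Real.exp_neg, Real.exp_log (by norm_num)]; norm_num
  have h2 : Real.exp (Real.log (3 / 2) / 2) ^ 2 = 3 / 2 := by
    rw [← Real.exp_nat_mul]
    have : ((2 : ℕ) : ℝ) * (Real.log (3 / 2) / 2) = Real.log (3 / 2) := by push_cast; ring
    rw [this, Real.exp_log (by norm_num)]
  have p1 := Real.exp_pos (-(Real.log 2) / 2)
  have p2 := Real.exp_pos (Real.log (3 / 2) / 2)
  nlinarith [sq_nonneg (Real.exp (-(Real.log 2) / 2) - Real.exp (Real.log (3 / 2) / 2)),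
    sq_nonneg (Real.exp (-(Real.log 2) / 2) + Real.exp (Real.log (3 / 2) / 2))]

lemma log_three_half_pos : 0 < Real.log (3 / 2) := Real.log_pos (by norm_num)

lemma log_lt : Real.log (3 / 2) < Real.log 2 := Real.log_lt_log (by norm_num) (by norm_num)

/-- Barrier: `1/(v-a) + 1/(v+b) - 2/v ≥ (a-b)/v^2`. -/
lemma barrier {a b v : ℝ} (ha : 0 < a) (hb : 0 < b) (hab : b < a) (hv : a < v) :
    (a - b) / v ^ 2 ≤ 1 / (v - a) + 1 / (v + b) - 2 / v := by
  have h1 : 0 < v - a := by linarith
  have h2 : 0 < v + b := by linarith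
  have h3 : 0 < v := by linarith
  have e : 1 / (v - a) + 1 / (v + b) - 2 / v = ((a - b) * v + 2 * a * b) / (v * ((v - a) * (v + b))) := by
    field_simp; ring
  rw [e, div_le_div_iff₀ (by positivity) (by positivity)]
  have : 0 < (a - b) := by linarith
  nlinarith [mul_pos this h3, mul_pos ha hb, mul_pos (mul_pos this h3) h3, mul_pos (mul_pos (mul_pos this h3) h3) h3,
    mul_pos (mul_pos ha hb) h3, mul_pos (mul_pos (mul_pos ha hb) h3) h3, mul_pos (mul_pos (mul_pos this this) h3) (mul_pos h3 h3),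
    mul_pos (mul_pos (mul_pos this (mul_pos ha hb)) h3) h3]

/-- Maximum principle: a bounded subsolution which is `≤ c` on the window `[v'-a, v']` is
`≤ c + K/(v'-a)` above. -/
theorem max_principle {h : ℝ → ℝ} {C c w : ℝ} (hC : 0 ≤ C) (hw : 2 * Real.log 2 ≤ w)
    (hb : ∀ v, h v ≤ 1) (hc : 0 ≤ c)
    (hrec : ∀ v, w ≤ v → h v ≤ (h (v - Real.log 2) + h (v + Real.log (3 / 2))) / 2 + C / v ^ 2)
    (hwin : ∀ v, w - Real.log 2 ≤ v → v ≤ w → h v ≤ c) :
    ∀ v, w ≤ v → h v ≤ c + (2 * C / (Real.log 2 - Real.log (3 / 2))) / (w - Real.log 2) := by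
  set a := Real.log 2 with ha'
  set b := Real.log (3 / 2) with hb'
  have ha : 0 < a := Real.log_pos (by norm_num)
  have hb0 : 0 < b := log_three_half_pos
  have hab : b < a := log_lt
  set K := 2 * C / (a - b) with hK
  have hK0 : 0 ≤ K := by apply div_nonneg <;> linarith
  have hwa : 0 < w - a := by linarith
  intro v hv
  -- the comparison function
  suffices H : ∀ δ : ℝ, 0 < δ → ∀ u, w - a ≤ u →
      h u - c - (K / (w - a) - K / u) - δ * Real.exp (u / 2) ≤ 0 by
    have : ∀ δ : ℝ, 0 < δ → h v ≤ c + K / (w - a) + δ * Real.exp (v / 2) := by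
      intro δ hδ
      have h1 := H δ hδ v (by linarith)
      have h2 : 0 ≤ K / v := div_nonneg hK0 (by linarith)
      linarith
    refine le_of_forall_pos_le_add ?_
    intro ε hε
    have h1 := this (ε / Real.exp (v / 2)) (div_pos hε (Real.exp_pos _))
    rwa [div_mul_cancel₀ _ (Real.exp_pos _).ne'] at h1
  intro δ hδ
  set D : ℝ → ℝ := fun u => h u - c - (K / (w - a) - K / u) - δ * Real.exp (u / 2) with hD
  by_contra hcon
  push Not at hcon
  obtain ⟨u0, hu0, hu0'⟩ := hcon
  -- bounded above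
  have hbd : BddAbove (D '' Ici (w - a)) := by
    refine ⟨1, ?_⟩
    rintro _ ⟨u, hu, rfl⟩
    have hu' : w - a ≤ u := hu
    have h1 : K / u ≤ K / (w - a) := div_le_div_of_nonneg_left hK0 hwa hu'
    have h2 := hb u
    have h3 : 0 < δ * Real.exp (u / 2) := mul_pos hδ (Real.exp_pos _)
    simp only [hD]
    linarith
  set S := sSup (D '' Ici (w - a)) with hS
  have hle : ∀ u, w - a ≤ u → D u ≤ S := fun u hu => le_csSup hbd ⟨u, hu, rfl⟩
  have hS0 : 0 < S := lt_of_lt_of_le hu0' (hle u0 hu0)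
  set θ := (Real.exp (-a / 2) + Real.exp (b / 2)) / 2 with hθ
  have hθ1 : θ < 1 := strict_lam
  set ε := δ * (1 - θ) * Real.exp ((w - a) / 2) with hε
  have hε0 : 0 < ε := mul_pos (mul_pos hδ (by linarith)) (Real.exp_pos _)
  obtain ⟨_, ⟨u, hu, rfl⟩, hu1⟩ := exists_lt_of_lt_csSup
    (show (D '' Ici (w - a)).Nonempty from ⟨_, ⟨u0, hu0, rfl⟩⟩)
    (show max 0 (S - ε) < S from max_lt hS0 (by linarith))
  have hu' : w - a ≤ u := hu
  have hu2 : 0 < D u := lt_of_le_of_lt (le_max_left _ _) hu1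
  have hu3 : S - ε < D u := lt_of_le_of_lt (le_max_right _ _) hu1
  rcases le_or_gt w u with hwu | hwu
  · -- recursion
    have h1 := hrec u hwu
    have h2 := hle (u - a) (by linarith)
    have h3 := hle (u + b) (by linarith)
    have hbar := barrier ha hb0 hab (show a < u by linarith)
    have hexp : Real.exp ((u - a) / 2) + Real.exp ((u + b) / 2) = 2 * θ * Real.exp (u / 2) := by
      rw [hθ, show (u - a) / 2 = -a / 2 + u / 2 by ring, show (u + b) / 2 = b / 2 + u / 2 by ring,
        Real.exp_add, Real.exp_add]; ring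
    have hmono : Real.exp ((w - a) / 2) ≤ Real.exp (u / 2) := Real.exp_le_exp.2 (by linarith)
    have hε1 : ε ≤ δ * (1 - θ) * Real.exp (u / 2) :=
      mul_le_mul_of_nonneg_left hmono (mul_nonneg hδ.le (by linarith))
    have hCK : C / u ^ 2 ≤ (K / 2) * (1 / (u - a) + 1 / (u + b) - 2 / u) := by
      have : C / u ^ 2 = (K / 2) * ((a - b) / u ^ 2) := by
        rw [hK]; field_simp [show (a - b) ≠ 0 by linarith]
      rw [this]
      exact mul_le_mul_of_nonneg_left hbar (by linarith)
    simp only [hD] at h2 h3 hu3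
    have e1 : (K / 2) * (1 / (u - a) + 1 / (u + b) - 2 / u)
        = (K / (u - a) + K / (u + b)) / 2 - K / u := by ring
    nlinarith [hCK, e1, hexp, hε1, h1, h2, h3, hu3]
  · -- window
    have h1 := hwin u (by linarith) hwu.le
    have h2 : K / u ≤ K / (w - a) := div_le_div_of_nonneg_left hK0 hwa hu'
    have h3 : 0 < δ * Real.exp (u / 2) := mul_pos hδ (Real.exp_pos _)
    simp only [hD] at hu2
    linarith

end Pool.Agent.H14.ND
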