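import Pool.Agent.H14.ND.TaoStep

/-!
# The descent theorem (from the one-step inequality)
-/

set_option autoImplicit false

namespace Pool.Agent.H14.ND

open Finset Pool.Agent.H30 Pool.Agent.H30.PD Filter Topology

/-- Integers `n` whose orbit stays above `φ |n|` up to time `5 log_2 |n|`. -/
def Bad (φ : ℝ → ℝ) : Set ℤ :=
  {n | ∀ k : ℕ, (k : ℝ) ≤ 5 * Real.logb 2 |(n : ℝ)| → φ |(n : ℝ)| < |((T^[k] n : ℤ) : ℝ)|}

theorem descent_pos (H : ∀ B : ℕ, ∃ C : ℝ, 0 ≤ C ∧ MultiStep B C) {B : ℕ} (hB : 1 ≤ B) :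
    ∃ C : ℝ, 0 ≤ C ∧ ∀ x z : ℝ, 2 ≤ x → 2 ≤ z →
      cnt (Bad fun _ => z) x ≤ C * x / (Real.log z) ^ B := by
  obtain ⟨C, hC, hst⟩ := H (B + 1)
  obtain ⟨E, hE, HE⟩ := uniform hB hC hst
  obtain ⟨E', hE', HE'⟩ := exp_le_pow (c := Real.log 2 * (2 / 1000))
    (by have := Real.log_pos (show (1 : ℝ) < 2 by norm_num); positivity) B
  refine ⟨3 * 200 ^ B + E + 3 * E', by positivity, fun x z hx hz => ?_⟩
  have hlog2 : 0 < Real.log 2 := Real.log_pos (by norm_num)
  have hlogz : 0 < Real.log z := Real.log_pos (by linarith)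
  have hlB : 0 < (Real.log z) ^ B := by positivity
  have hx0 : 0 < x := by linarith
  have hz0 : 0 < z := by linarith
  rcases lt_or_ge x z with hxz | hxz
  · -- nothing to count
    have : cnt (Bad fun _ => z) x = 0 := by
      refine cnt_empty fun n hn => ?_
      by_contra hcon
      push Not at hcon
      by_cases h0 : n = 0
      · have := hn 0 (by rw [h0]; simp)
        rw [h0] at this
        simp at this
        linarith
      · have h1 : (1 : ℝ) ≤ |(n : ℝ)| := by
          have := Int.one_le_abs h0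
          exact_mod_cast this
        have := hn 0 (by
          have := Real.logb_nonneg (b := 2) (by norm_num) h1
          simp only [Nat.cast_zero]
          positivity)
        simp at this
        linarith
    rw [this]
    positivity
  · set s := Real.logb 2 x with hs
    set k := Real.logb 2 z with hk
    have hxs : (2 : ℝ) ^ s = x := Real.rpow_logb (by norm_num) (by norm_num) hx0
    have hzk : (2 : ℝ) ^ k = z := Real.rpow_logb (by norm_num) (by norm_num) hz0
    have hks : k ≤ s := Real.logb_le_logb_of_le (by norm_num) hz0 hxz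
    rcases lt_or_ge k 200 with hk200 | hk200
    · have h1 : cnt (Bad fun _ => z) x ≤ 3 * x := by
        have := cnt_le (Bad fun _ => z) hx0.le
        linarith
      have h2 : Real.log z ≤ 200 := by
        have h3 : Real.log z = k * Real.log 2 := by
          rw [hk, Real.logb, div_mul_cancel₀ _ hlog2.ne']
        have h4 : Real.log 2 ≤ 1 := by
          have := Real.log_two_lt_d9
          linarith
        rw [h3]
        nlinarith
      have h3 : (Real.log z) ^ B ≤ 200 ^ B := pow_le_pow_left₀ hlogz.le h2 _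
      rw [le_div_iff₀ hlB]
      calc cnt (Bad fun _ => z) x * (Real.log z) ^ B ≤ 3 * x * 200 ^ B :=
            mul_le_mul h1 h3 hlB.le (by positivity)
        _ ≤ (3 * 200 ^ B + E + 3 * E') * x := by nlinarith [mul_nonneg hE hx0.le, mul_nonneg hE' hx0.le]
    · have hs0 : 0 < s := by linarith
      have hkB : (Real.log z) ^ B ≤ k ^ B := by
        refine pow_le_pow_left₀ hlogz.le ?_ _
        rw [hk, Real.logb, le_div_iff₀ hlog2]
        have h4 : Real.log 2 ≤ 1 := by
          have := Real.log_two_lt_d9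
          linarith
        nlinarith
      have h1 := HE k s (499 / 100 * s) hk200 hks le_rfl
      rw [hxs, hzk] at h1
      unfold f at h1
      rw [div_le_iff₀ hx0] at h1
      have h2 : cnt (Bad fun _ => z) x ≤ cnt (U z (499 / 100 * s)) x +
          (2 * 2 ^ (998 / 1000 * s) + 1) := by
        refine cnt_le_cnt (by positivity) fun n hn hnx => ?_
        rcases le_or_gt |(n : ℝ)| (2 ^ (998 / 1000 * s)) with h3 | h3
        · exact Or.inr h3
        · left
          intro i hi
          refine hn i (hi.trans ?_)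
          have h4 : 998 / 1000 * s ≤ Real.logb 2 |(n : ℝ)| := by
            rw [Real.le_logb_iff_rpow_le (by norm_num) (lt_trans (by positivity) h3)]
            exact h3.le
          linarith
      have h3 : (2 : ℝ) * 2 ^ (998 / 1000 * s) + 1 ≤ 3 * (x * (E' / s ^ B)) := by
        have h4 : (1 : ℝ) ≤ 2 ^ (998 / 1000 * s) := Real.one_le_rpow (by norm_num) (by positivity)
        have h5 : (2 : ℝ) ^ (998 / 1000 * s) = x * 2 ^ (-(2 / 1000) * s) := by
          rw [← hxs, ← Real.rpow_add (by norm_num)]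
          congr 1; ring
        have h6 : (2 : ℝ) ^ (-(2 / 1000) * s) ≤ E' / s ^ B := by
          rw [Real.rpow_def_of_pos (by norm_num),
            show Real.log 2 * (-(2 / 1000) * s) = -(Real.log 2 * (2 / 1000) * s) by ring]
          exact HE' s (by linarith)
        have h7 : x * 2 ^ (-(2 / 1000) * s) ≤ x * (E' / s ^ B) :=
          mul_le_mul_of_nonneg_left h6 hx0.le
        linarith
      have hk0 : 0 < k := by linarith
      have h4 : E / k ^ B ≤ E / (Real.log z) ^ B := div_le_div_of_nonneg_left hE hlB hkB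
      have h5 : E' / s ^ B ≤ E' / (Real.log z) ^ B :=
        div_le_div_of_nonneg_left hE' hlB (hkB.trans (pow_le_pow_left₀ hk0.le hks _))
      have h6 : E / k ^ B * x ≤ E / (Real.log z) ^ B * x := mul_le_mul_of_nonneg_right h4 hx0.le
      have h7 : x * (E' / s ^ B) ≤ x * (E' / (Real.log z) ^ B) := mul_le_mul_of_nonneg_left h5 hx0.le
      have h8 : (3 * 200 ^ B + E + 3 * E') * x / Real.log z ^ B =
          3 * 200 ^ B * x / (Real.log z) ^ B + E / (Real.log z) ^ B * x +
            3 * (x * (E' / (Real.log z) ^ B)) := by ring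
      have h9 : 0 ≤ 3 * 200 ^ B * x / (Real.log z) ^ B := by positivity
      rw [h8]
      linarith

/-- **Descent theorem.** -/
theorem descent (H : ∀ B : ℕ, ∃ C : ℝ, 0 ≤ C ∧ MultiStep B C) (B : ℕ) :
    ∃ C : ℝ, 0 ≤ C ∧ ∀ x z : ℝ, 2 ≤ x → 2 ≤ z →
      cnt (Bad fun _ => z) x ≤ C * x / (Real.log z) ^ B := by
  rcases Nat.eq_zero_or_pos B with hB | hB
  · subst hB
    refine ⟨3, by norm_num, fun x z hx _ => ?_⟩
    have := cnt_le (Bad fun _ => z) (show 0 ≤ x by linarith)
    rw [pow_zero, div_one]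
    linarith
  · exact descent_pos H hB

/-- Tao's theorem in natural density, with time bound. -/
theorem density_zero (H : ∀ B : ℕ, ∃ C : ℝ, 0 ≤ C ∧ MultiStep B C) (φ : ℝ → ℝ)
    (hφ : Tendsto φ atTop atTop) : Tendsto (fun x : ℝ => cnt (Bad φ) x / x) atTop (𝓝 0) := by
  obtain ⟨C, hC, hd⟩ := descent H 1
  rw [Metric.tendsto_atTop]
  intro ε hε
  -- choose z
  obtain ⟨z, hz2, hz⟩ : ∃ z : ℝ, 2 ≤ z ∧ C / Real.log z < ε / 2 := by
    have h1 : Tendsto (fun z : ℝ => C / Real.log z) atTop (𝓝 0) :=
      Real.tendsto_log_atTop.const_div_atTop C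
    have h2 := (h1.eventually_lt_const (show 0 < ε / 2 by linarith)).and (eventually_ge_atTop 2)
    obtain ⟨z, hz⟩ := h2.exists
    exact ⟨z, hz.2, hz.1⟩
  obtain ⟨R, hR⟩ := (hφ.eventually_ge_atTop z).exists_forall_of_atTop
  set R' := max R 0 with hR'
  refine ⟨max 2 ((2 * R' + 2) / (ε / 2)), fun x hx => ?_⟩
  have hx2 : 2 ≤ x := le_trans (le_max_left _ _) hx
  have hxR : (2 * R' + 2) / (ε / 2) ≤ x := le_trans (le_max_right _ _) hx
  have hx0 : 0 < x := by linarith
  have hR0 : 0 ≤ R' := le_max_right _ _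
  have h1 : cnt (Bad φ) x ≤ cnt (Bad fun _ => z) x + (2 * R' + 1) := by
    refine cnt_le_cnt hR0 fun n hn _ => ?_
    rcases le_or_gt |(n : ℝ)| R' with h | h
    · exact Or.inr h
    · left
      intro k hk
      exact lt_of_le_of_lt (hR _ (le_trans (le_max_left _ _) h.le)) (hn k hk)
  have h2 := hd x z hx2 hz2
  rw [pow_one] at h2
  rw [div_le_iff₀ (by linarith)] at hxR
  have h3 : cnt (Bad φ) x < ε * x := by
    have h4 : C * x / Real.log z < ε / 2 * x := by
      have : C * x / Real.log z = C / Real.log z * x := by ring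
      rw [this]
      exact mul_lt_mul_of_pos_right hz hx0
    linarith
  rw [Real.dist_eq, sub_zero, abs_of_nonneg (div_nonneg (cnt_nonneg _ _) hx0.le),
    div_lt_iff₀ hx0]
  exact h3

end Pool.Agent.H14.ND
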