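import Pool.Agent.H30.PD.WBasic

/-!
# Almost all orbits of the 3x+1 map come down (MP_ff4775_nt): counting functions, size lemmas, iteration of the
one-step identity.
-/

set_option autoImplicit false

namespace Pool.Agent.H14.ND

open Finset Pool.Agent.H30 Pool.Agent.H30.PD

/-- Number of elements of `S` in `[-x, x]`. -/
noncomputable def cnt (S : Set ℤ) (x : ℝ) : ℝ := (Set.ncard {m : ℤ | m ∈ S ∧ |(m : ℝ)| ≤ x} : ℝ)

/-- Normalised number of `m ∈ [-x, x]` with `T^L m ∈ W`. -/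
noncomputable def F (W : Set ℤ) (L : ℕ) (x : ℝ) : ℝ := cnt (T^[L] ⁻¹' W) x / x

theorem fin_abs (x : ℝ) : {m : ℤ | |(m : ℝ)| ≤ x}.Finite := by
  refine (Set.finite_Icc (-⌊x⌋) ⌊x⌋).subset ?_
  intro m hm
  rw [Set.mem_setOf_eq, abs_le] at hm
  rw [Set.mem_Icc, neg_le, Int.le_floor, Int.le_floor]
  push_cast
  constructor <;> linarith [hm.1, hm.2]

theorem cnt_nonneg (S : Set ℤ) (x : ℝ) : 0 ≤ cnt S x := by unfold cnt; positivity

theorem cnt_le_cnt {S S' : Set ℤ} {R x : ℝ} (hR : 0 ≤ R)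
    (h : ∀ m ∈ S, |(m : ℝ)| ≤ x → m ∈ S' ∨ |(m : ℝ)| ≤ R) : cnt S x ≤ cnt S' x + (2 * R + 1) := by
  have h1 : {m : ℤ | m ∈ S ∧ |(m : ℝ)| ≤ x} ⊆
      {m : ℤ | m ∈ S' ∧ |(m : ℝ)| ≤ x} ∪ Set.Icc (-⌊R⌋) ⌊R⌋ := by
    rintro m ⟨hm, hx⟩
    rcases h m hm hx with h | h
    · exact Or.inl ⟨h, hx⟩
    · right
      rw [abs_le] at h
      rw [Set.mem_Icc, neg_le, Int.le_floor, Int.le_floor]
      push_cast
      constructor <;> linarith [h.1, h.2]
  have hf : ({m : ℤ | m ∈ S' ∧ |(m : ℝ)| ≤ x} ∪ Set.Icc (-⌊R⌋) ⌊R⌋).Finite :=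
    ((fin_abs x).subset fun m hm => hm.2).union (Set.finite_Icc _ _)
  have h2 := (Set.ncard_le_ncard h1 hf).trans (Set.ncard_union_le _ _)
  have h3 : ((Set.Icc (-⌊R⌋) ⌊R⌋).ncard : ℝ) ≤ 2 * R + 1 := by
    rw [← Nat.card_coe_set_eq, Nat.card_eq_fintype_card, Fintype.card_ofFinset, Int.card_Icc]
    have h0 : 0 ≤ ⌊R⌋ := Int.floor_nonneg.mpr hR
    have : ((⌊R⌋ + 1 - -⌊R⌋).toNat : ℤ) = 2 * ⌊R⌋ + 1 := by
      rw [Int.toNat_of_nonneg (by omega)]; ring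
    have h4 : ((⌊R⌋ + 1 - -⌊R⌋).toNat : ℝ) = 2 * ⌊R⌋ + 1 := by exact_mod_cast this
    rw [h4]
    linarith [Int.floor_le R]
  unfold cnt
  have h5 : ((Set.ncard {m : ℤ | m ∈ S ∧ |(m : ℝ)| ≤ x} : ℕ) : ℝ) ≤
      ((Set.ncard {m : ℤ | m ∈ S' ∧ |(m : ℝ)| ≤ x} + (Set.Icc (-⌊R⌋) ⌊R⌋).ncard : ℕ) : ℝ) := by
    exact_mod_cast h2
  push_cast at h5
  linarith

theorem cnt_mono {S S' : Set ℤ} {x : ℝ} (h : ∀ m ∈ S, |(m : ℝ)| ≤ x → m ∈ S') :
    cnt S x ≤ cnt S' x := by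
  unfold cnt
  have : Set.ncard {m : ℤ | m ∈ S ∧ |(m : ℝ)| ≤ x} ≤ Set.ncard {m : ℤ | m ∈ S' ∧ |(m : ℝ)| ≤ x} :=
    Set.ncard_le_ncard (fun m hm => ⟨h m hm.1 hm.2, hm.2⟩) ((fin_abs x).subset fun m hm => hm.2)
  exact_mod_cast this

theorem cnt_empty {S : Set ℤ} {x : ℝ} (h : ∀ m ∈ S, x < |(m : ℝ)|) : cnt S x = 0 := by
  unfold cnt
  have : {m : ℤ | m ∈ S ∧ |(m : ℝ)| ≤ x} = ∅ := by
    ext m
    simp only [Set.mem_setOf_eq, Set.mem_empty_iff_false, iff_false, not_and, not_le]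
    exact h m
  rw [this, Set.ncard_empty]
  simp

theorem cnt_le (S : Set ℤ) {x : ℝ} (hx : 0 ≤ x) : cnt S x ≤ 2 * x + 1 := by
  have := cnt_le_cnt (S := S) (S' := ∅) hx (x := x) fun m _ h => Or.inr h
  rwa [cnt_empty (S := ∅) (by simp), zero_add] at this

theorem F_nonneg (W : Set ℤ) (L : ℕ) {x : ℝ} (hx : 0 ≤ x) : 0 ≤ F W L x :=
  div_nonneg (cnt_nonneg _ _) hx

theorem F_le (W : Set ℤ) (L : ℕ) {x : ℝ} (hx : 1 ≤ x) : F W L x ≤ 3 := by
  unfold F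
  rw [div_le_iff₀ (by linarith)]
  linarith [cnt_le (T^[L] ⁻¹' W) (show 0 ≤ x by linarith)]

/-! ## Sizes -/

theorem T_lower (n : ℤ) : |(n : ℝ)| ≤ 2 * |(T n : ℝ)| := by
  have h : |n| ≤ 2 * |T n| := by
    unfold T
    split_ifs with h
    · rw [abs_le, abs_eq_max_neg]; constructor <;> omega
    · rw [abs_le, abs_eq_max_neg]; constructor <;> omega
  exact_mod_cast h

theorem T_upper (n : ℤ) : |(T n : ℝ)| + 1 ≤ 3 / 2 * (|(n : ℝ)| + 1) := by
  have h : 2 * |T n| ≤ 3 * |n| + 1 := by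
    unfold T
    split_ifs with h
    · rw [abs_eq_max_neg, abs_eq_max_neg]; omega
    · rw [abs_eq_max_neg, abs_eq_max_neg]; omega
  have h' : (2 : ℝ) * |(T n : ℝ)| ≤ 3 * |(n : ℝ)| + 1 := by exact_mod_cast h
  linarith

theorem iter_lower (i : ℕ) (m : ℤ) : |(m : ℝ)| ≤ 2 ^ i * |((T^[i] m : ℤ) : ℝ)| := by
  induction i generalizing m with
  | zero => simp
  | succ i ih =>
    rw [Function.iterate_succ_apply, pow_succ]
    have h1 := T_lower m
    have h2 := ih (T m)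
    linarith

theorem iter_upper (i : ℕ) (m : ℤ) :
    |((T^[i] m : ℤ) : ℝ)| + 1 ≤ (3 / 2) ^ i * (|(m : ℝ)| + 1) := by
  induction i generalizing m with
  | zero => simp
  | succ i ih =>
    rw [Function.iterate_succ_apply, pow_succ]
    have h1 := T_upper m
    have h2 := ih (T m)
    have h3 : (0 : ℝ) < (3 / 2) ^ i := by positivity
    nlinarith

/-! ## The set of integers staying above `K` until time `t` -/

/-- Integers whose orbit stays above `K` in absolute value until time `t`. -/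
def U (K t : ℝ) : Set ℤ := {m | ∀ i : ℕ, (i : ℝ) ≤ t → K < |((T^[i] m : ℤ) : ℝ)|}

theorem U_shift {K t : ℝ} {m : ℤ} (hm : m ∈ U K t) (l : ℕ) : T^[l] m ∈ U K (t - l) := by
  intro i hi
  rw [← Function.iterate_add_apply]
  exact hm _ (by push_cast; linarith)

theorem U_back {K t : ℝ} {m : ℤ} (hK : 0 ≤ K) {h : ℕ} (hm : T^[h] m ∈ U K t)
    (hbig : 2 ^ h * K < |(m : ℝ)|) : m ∈ U K (t + h) := by
  intro i hi
  by_cases hih : h ≤ i
  · obtain ⟨j, rfl⟩ := Nat.exists_eq_add_of_le hih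
    have := hm j (by push_cast at hi; linarith)
    rwa [← Function.iterate_add_apply, add_comm] at this
  · push Not at hih
    have h1 := iter_lower i m
    have h2 : (2 : ℝ) ^ i ≤ 2 ^ h := pow_le_pow_right₀ (by norm_num) hih.le
    by_contra hcon
    push Not at hcon
    have h3 : (2 : ℝ) ^ i * |((T^[i] m : ℤ) : ℝ)| ≤ 2 ^ h * K :=
      mul_le_mul h2 hcon (abs_nonneg _) (by positivity)
    linarith

theorem U_pos {K t : ℝ} {m : ℤ} (hm : m ∈ U K t) (ht : 0 ≤ t) : K < |(m : ℝ)| := by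
  simpa using hm 0 (by simpa using ht)

/-- The proportion of integers in `[-x, x]` staying above `K` until time `t`. -/
noncomputable def f (K t x : ℝ) : ℝ := cnt (U K t) x / x

theorem f_nonneg (K t : ℝ) {x : ℝ} (hx : 0 ≤ x) : 0 ≤ f K t x := div_nonneg (cnt_nonneg _ _) hx

theorem f_le_F (K t : ℝ) (l : ℕ) {x : ℝ} (hx : 0 ≤ x) : f K t x ≤ F (U K (t - l)) l x :=
  div_le_div_of_nonneg_right (cnt_mono fun _ hm _ => U_shift hm l) hx

theorem F_le_f {K t : ℝ} (hK : 0 ≤ K) (h : ℕ) {x : ℝ} (hx : 0 < x) :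
    F (U K t) h x ≤ f K (t + h) x + (2 * (2 ^ h * K) + 1) / x := by
  unfold F f
  rw [← add_div]
  refine div_le_div_of_nonneg_right ?_ hx.le
  refine cnt_le_cnt (by positivity) fun m hm _ => ?_
  rcases le_or_gt |(m : ℝ)| (2 ^ h * K) with h1 | h1
  · exact Or.inr h1
  · exact Or.inl (U_back hK hm h1)

/-! ## Iteration of the one-step inequality -/

/-- The one-step inequality with exponent `B` and constant `C`. -/
def OneStep (B : ℕ) (C : ℝ) : Prop := ∀ (W : Set ℤ) (l : ℕ) (x : ℝ), 1 ≤ l → 2 ^ l ≤ x →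
  F W (l + 1) x ≤ 1 / 2 * F W l (x / 2) + 1 / 2 * F W l (3 * x / 2) +
    C * (1 / (l : ℝ) ^ B + 2 ^ l / x)

theorem multi_step {B : ℕ} {C : ℝ} (hC : 0 ≤ C) (H : OneStep B C) (W : Set ℤ) {h : ℕ} (hh : 1 ≤ h)
    (b : ℕ) {x : ℝ} (hx : 2 ^ (h + b) ≤ x) :
    F W (h + b) x ≤ ∑ q ∈ range (b + 1), bin b q * F W h (3 ^ q * x / 2 ^ b) +
      b * C * (1 / (h : ℝ) ^ B + 2 ^ (h + b) / x) := by
  induction b generalizing x with
  | zero => simp [bin]
  | succ b ih =>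
    have hpow : (2 : ℝ) ^ (h + (b + 1)) = 2 * 2 ^ (h + b) := by rw [← add_assoc, pow_succ]; ring
    have hpos : (0 : ℝ) < 2 ^ (h + b) := by positivity
    rw [hpow] at hx
    have hx0 : 0 < x := by linarith
    have h1 := H W (h + b) x (by omega) (by linarith)
    have h2 := ih (x := x / 2) (by linarith)
    have h3 := ih (x := 3 * x / 2) (by linarith)
    have e1 : ∑ q ∈ range (b + 1 + 1), bin (b + 1) q * F W h (3 ^ q * x / 2 ^ (b + 1)) =
        1 / 2 * ∑ q ∈ range (b + 1), bin b q * F W h (3 ^ q * (x / 2) / 2 ^ b) +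
        1 / 2 * ∑ q ∈ range (b + 1), bin b q * F W h (3 ^ q * (3 * x / 2) / 2 ^ b) := by
      rw [show b + 1 + 1 = b + 2 from rfl, bin_pascal b (fun q => F W h (3 ^ q * x / 2 ^ (b + 1)))]
      congr 3
      · ext q
        congr 2
        rw [pow_succ]; ring
      · ext q
        congr 2
        rw [pow_succ, pow_succ]; ring
    have hl : (1 : ℝ) / ((h + b : ℕ) : ℝ) ^ B ≤ 1 / (h : ℝ) ^ B := by
      have : (1 : ℝ) ≤ h := by exact_mod_cast hh
      refine one_div_le_one_div_of_le (by positivity) (pow_le_pow_left₀ (by positivity) ?_ _)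
      push_cast; linarith [(Nat.cast_nonneg b : (0 : ℝ) ≤ b)]
    have hA : 0 ≤ (2 : ℝ) ^ (h + b) / x := by positivity
    have e2 : (2 : ℝ) ^ (h + b) / (x / 2) = 2 * (2 ^ (h + b) / x) := by field_simp
    have e3 : (2 : ℝ) ^ (h + b) / (3 * x / 2) = 2 / 3 * (2 ^ (h + b) / x) := by field_simp
    rw [show h + (b + 1) = h + b + 1 from rfl, e1]
    rw [e2] at h2
    rw [e3] at h3
    have e4 : (2 : ℝ) ^ (h + b + 1) / x = 2 * (2 ^ (h + b) / x) := by rw [pow_succ]; ring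
    rw [e4]
    push_cast
    set A := (2 : ℝ) ^ (h + b) / x
    set I := (1 : ℝ) / (h : ℝ) ^ B
    have hI : 0 ≤ I := by positivity
    have hb : (0 : ℝ) ≤ b := by positivity
    have h4 : C * (1 / ((h + b : ℕ) : ℝ) ^ B + A) ≤ C * (I + 2 * A) :=
      mul_le_mul_of_nonneg_left (by linarith) hC
    have h5 : (b : ℝ) * C * (I + 2 / 3 * A) ≤ b * C * (I + 2 * A) :=
      mul_le_mul_of_nonneg_left (by linarith) (by positivity)
    linarith

/-- The inequality for several steps (what the descent theorem uses). -/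
def MultiStep (B : ℕ) (C : ℝ) : Prop := ∀ (W : Set ℤ) (h b : ℕ) (x : ℝ), 1 ≤ h → 1 ≤ b →
  2 ^ (h + b) ≤ x →
  F W (h + b) x ≤ ∑ q ∈ range (b + 1), bin b q * F W h (3 ^ q * x / 2 ^ b) +
      b * C * (1 / (h : ℝ) ^ B + 2 ^ (h + b) / x)

theorem OneStep.multi {B : ℕ} {C : ℝ} (H : OneStep B C) (hC : 0 ≤ C) : MultiStep B C :=
  fun W _ b _ hh _ hx => multi_step hC H W hh b hx

end Pool.Agent.H14.ND
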