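import Pool.Agent.H14.ND.TaoDefs

/-!
# Numerical estimates for the descent theorem
-/

set_option autoImplicit false

namespace Pool.Agent.H14.ND

open Finset Pool.Agent.H30 Pool.Agent.H30.PD

theorem exp_le_pow {c : ℝ} (hc : 0 < c) (B : ℕ) :
    ∃ E : ℝ, 0 ≤ E ∧ ∀ s : ℝ, 1 ≤ s → Real.exp (-(c * s)) ≤ E / s ^ B := by
  refine ⟨B.factorial / c ^ B, by positivity, fun s hs => ?_⟩
  have hs0 : 0 < s := by linarith
  have h := Real.pow_div_factorial_le_exp (c * s) (by positivity) B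
  rw [Real.exp_neg, div_div, ← mul_pow, inv_eq_one_div]
  rw [div_le_div_iff₀ (Real.exp_pos _) (by positivity)]
  rw [div_le_iff₀ (by positivity)] at h
  linarith

/-- `log_2 3`. -/
noncomputable def lam : ℝ := Real.logb 2 3

theorem two_rpow_lam : (2 : ℝ) ^ lam = 3 := Real.rpow_logb (by norm_num) (by norm_num) (by norm_num)

theorem lam_lower : 19 / 12 < lam := by
  have h : (19 : ℝ) < 12 * lam := by
    have h1 : Real.logb 2 ((2 : ℝ) ^ 19) < Real.logb 2 ((3 : ℝ) ^ 12) :=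
      Real.logb_lt_logb (by norm_num) (by norm_num) (by norm_num)
    rw [Real.logb_pow, Real.logb_pow, Real.logb_self_eq_one (by norm_num)] at h1
    push_cast at h1
    unfold lam
    linarith
  linarith

theorem lam_upper : lam < 65 / 41 := by
  have h : 41 * lam < (65 : ℝ) := by
    have h1 : Real.logb 2 ((3 : ℝ) ^ 41) < Real.logb 2 ((2 : ℝ) ^ 65) :=
      Real.logb_lt_logb (by norm_num) (by norm_num) (by norm_num)
    rw [Real.logb_pow, Real.logb_pow, Real.logb_self_eq_one (by norm_num)] at h1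
    push_cast at h1
    unfold lam
    linarith
  linarith

theorem yq_eq (q b : ℕ) (s : ℝ) : (3 : ℝ) ^ q * 2 ^ s / 2 ^ b = 2 ^ (s - b + q * lam) := by
  rw [Real.rpow_add (by norm_num), Real.rpow_sub (by norm_num), mul_comm (q : ℝ) lam,
    Real.rpow_mul (by norm_num), two_rpow_lam, Real.rpow_natCast, Real.rpow_natCast]
  ring

/-- The typical range. -/
def Typ (b q : ℕ) : Prop := |2 * (q : ℝ) - b| < 8 / 1000 * b

theorem typ_upper {b q : ℕ} (h : Typ b q) (s : ℝ) : s - b + q * lam ≤ s - 2009 / 10000 * b := by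
  have h1 := (abs_lt.mp h).2
  have h2 : (q : ℝ) ≤ 504 / 1000 * b := by linarith
  have h3 : (q : ℝ) * lam ≤ 504 / 1000 * b * (65 / 41) :=
    mul_le_mul h2 lam_upper.le (by linarith [lam_lower]) (by positivity)
  have : (0 : ℝ) ≤ b := by positivity
  linarith

theorem typ_lower {b q : ℕ} (h : Typ b q) (s : ℝ) : s - 215 / 1000 * b ≤ s - b + q * lam := by
  have h1 := (abs_lt.mp h).1
  have h2 : 496 / 1000 * b ≤ (q : ℝ) := by linarith
  have h3 : 496 / 1000 * b * (19 / 12) ≤ (q : ℝ) * lam :=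
    mul_le_mul h2 lam_lower.le (by norm_num) (by positivity)
  have : (0 : ℝ) ≤ b := by positivity
  linarith

theorem y_ge_one {b q : ℕ} {s : ℝ} (h : (b : ℝ) ≤ s) : 1 ≤ (3 : ℝ) ^ q * 2 ^ s / 2 ^ b := by
  rw [yq_eq]
  refine Real.one_le_rpow (by norm_num) ?_
  have : 0 ≤ (q : ℝ) * lam := mul_nonneg (by positivity) (by linarith [lam_lower])
  linarith

open Classical in
theorem atyp_mass {b : ℕ} (hb : 1 ≤ b) :
    ∑ q ∈ (range (b + 1)).filter (fun q => ¬ Typ b q), bin b q ≤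
      2 * Real.exp (-(32 / 1000000 * b)) := by
  have h := bin_tail hb (x := 8 / 1000 * b) (by positivity)
  have hb' : (0 : ℝ) < b := by exact_mod_cast hb
  have e : -(8 / 1000 * (b : ℝ)) ^ 2 / (2 * b) = -(32 / 1000000 * b) := by
    field_simp
    norm_num
  rw [show -((8 / 1000 * (b : ℝ)) ^ 2) / (2 * b) = -(32 / 1000000 * b) from e] at h
  refine le_trans (le_of_eq ?_) h
  congr 1
  ext q
  simp only [mem_filter, Typ, not_lt]

theorem err_bound {C : ℝ} (hC : 0 ≤ C) (B : ℕ) : ∃ E : ℝ, 0 ≤ E ∧ ∀ s : ℝ, 200 ≤ s → ∀ b h : ℕ,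
    4 / 100 * s - 1 ≤ b → s / 100 - 1 ≤ h → (b : ℝ) + h ≤ 52 / 100 * s →
    3 * (2 : ℝ) ^ (-(29 / 1000) * s) + 6 * Real.exp (-(32 / 1000000 * b)) +
      b * C * (1 / (h : ℝ) ^ (B + 1) + 2 ^ (h + b) / 2 ^ s) ≤ E / s ^ B := by
  obtain ⟨E1, hE1, H1⟩ := exp_le_pow (c := Real.log 2 * (29 / 1000))
    (by have := Real.log_pos (show (1 : ℝ) < 2 by norm_num); positivity) B
  obtain ⟨E2, hE2, H2⟩ := exp_le_pow (c := 32 / 1000000 * (3 / 100)) (by norm_num) B
  obtain ⟨E3, hE3, H3⟩ := exp_le_pow (c := Real.log 2 * (48 / 100))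
    (by have := Real.log_pos (show (1 : ℝ) < 2 by norm_num); positivity) (B + 1)
  refine ⟨3 * E1 + 6 * E2 + C * (200 ^ (B + 1) + E3), by positivity, ?_⟩
  intro s hs b h hb hh hbh
  have hs0 : 0 < s := by linarith
  have hsB : 0 < s ^ B := by positivity
  have hb0 : (0 : ℝ) ≤ b := by positivity
  have hh0 : (0 : ℝ) ≤ h := by positivity
  have h1 : (2 : ℝ) ^ (-(29 / 1000) * s) ≤ E1 / s ^ B := by
    rw [Real.rpow_def_of_pos (by norm_num),
      show Real.log 2 * (-(29 / 1000) * s) = -(Real.log 2 * (29 / 1000) * s) by ring]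
    exact H1 s (by linarith)
  have h2 : Real.exp (-(32 / 1000000 * b)) ≤ E2 / s ^ B := by
    refine le_trans (Real.exp_le_exp.mpr ?_) (H2 s (by linarith))
    linarith
  have h3 : (b : ℝ) * (1 / (h : ℝ) ^ (B + 1)) ≤ 200 ^ (B + 1) / s ^ B := by
    have hh1 : s / 200 ≤ h := by linarith
    have hp : (s / 200) ^ (B + 1) ≤ (h : ℝ) ^ (B + 1) := pow_le_pow_left₀ (by positivity) hh1 _
    have hbs : (b : ℝ) ≤ s := by linarith
    calc (b : ℝ) * (1 / (h : ℝ) ^ (B + 1)) ≤ s * (1 / (s / 200) ^ (B + 1)) :=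
          mul_le_mul hbs (one_div_le_one_div_of_le (by positivity) hp) (by positivity) hs0.le
      _ = 200 ^ (B + 1) / s ^ B := by
          rw [div_pow, pow_succ s B]
          field_simp
  have h4 : (b : ℝ) * (2 ^ (h + b) / 2 ^ s) ≤ E3 / s ^ B := by
    have hpow : (2 : ℝ) ^ (h + b) / 2 ^ s ≤ E3 / s ^ (B + 1) := by
      have : (2 : ℝ) ^ (h + b) / 2 ^ s = 2 ^ ((h : ℝ) + b - s) := by
        rw [Real.rpow_sub (by norm_num), ← Nat.cast_add, Real.rpow_natCast]
      rw [this]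
      refine le_trans ?_ (H3 s (by linarith))
      rw [Real.rpow_def_of_pos (by norm_num)]
      refine Real.exp_le_exp.mpr ?_
      have hl := Real.log_pos (show (1 : ℝ) < 2 by norm_num)
      nlinarith
    have hbs : (b : ℝ) ≤ s := by linarith
    calc (b : ℝ) * (2 ^ (h + b) / 2 ^ s) ≤ s * (E3 / s ^ (B + 1)) :=
          mul_le_mul hbs hpow (by positivity) hs0.le
      _ = E3 / s ^ B := by
          rw [pow_succ s B]
          field_simp
  have h5 : (b : ℝ) * C * (1 / (h : ℝ) ^ (B + 1) + 2 ^ (h + b) / 2 ^ s) =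
      C * ((b : ℝ) * (1 / (h : ℝ) ^ (B + 1)) + b * (2 ^ (h + b) / 2 ^ s)) := by ring
  rw [h5]
  have h6 : C * ((b : ℝ) * (1 / (h : ℝ) ^ (B + 1)) + b * (2 ^ (h + b) / 2 ^ s)) ≤
      C * (200 ^ (B + 1) / s ^ B + E3 / s ^ B) := mul_le_mul_of_nonneg_left (by linarith) hC
  have h7 : (3 * E1 + 6 * E2 + C * (200 ^ (B + 1) + E3)) / s ^ B =
      3 * (E1 / s ^ B) + 6 * (E2 / s ^ B) + C * (200 ^ (B + 1) / s ^ B + E3 / s ^ B) := by ring
  rw [h7]
  linarith

end Pool.Agent.H14.ND
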