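import Pool.Agent.H14.ND.Tao
import Pool.Agent.H39.ND.MasterI

/-!
Almost all integers (natural density) have 3x+1 orbits that come down below `z` within `5 log_2 |n|` steps.
-/

set_option autoImplicit false

namespace Pool.Agent.H14.ND

open Pool.Agent.H30 Filter Topology

theorem F_eq_F2 (W : Set ℤ) (L : ℕ) (x : ℝ) : F W L x = Pool.Agent.H39.ND.F2 W L x := by
  unfold F cnt Pool.Agent.H39.ND.F2
  rw [← Nat.card_coe_set_eq]
  congr 2
  refine Nat.card_congr (Equiv.subtypeEquivRight fun n => ?_)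
  exact and_comm

theorem oneStep (B : ℕ) : ∃ C : ℝ, 0 ≤ C ∧ OneStep B C := by
  obtain ⟨C, hC, H⟩ := Pool.Agent.H39.ND.master_two B
  refine ⟨C, hC.le, fun W l x hl hx => ?_⟩
  have h := (abs_le.mp (H W l x hl hx)).2
  rw [F_eq_F2, F_eq_F2, F_eq_F2]
  linarith

theorem multiStep (B : ℕ) : ∃ C : ℝ, 0 ≤ C ∧ MultiStep B C := by
  obtain ⟨C, hC, H⟩ := oneStep B
  exact ⟨C, hC, H.multi hC⟩

theorem almost_all_bounded (B : ℕ) : ∃ C : ℝ, ∀ x z : ℝ, 2 ≤ x → 2 ≤ z →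
    (Nat.card {n : ℤ // |(n : ℝ)| ≤ x ∧
      ∀ k : ℕ, (k : ℝ) ≤ 5 * Real.logb 2 |(n : ℝ)| → z < |((T^[k] n : ℤ) : ℝ)|} : ℝ) ≤
      C * x / (Real.log z) ^ B := by
  obtain ⟨C, _, hC⟩ := descent multiStep B
  refine ⟨C, fun x z hx hz => (le_of_eq ?_).trans (hC x z hx hz)⟩
  unfold cnt Bad
  rw [← Nat.card_coe_set_eq]
  congr 1
  refine Nat.card_congr (Equiv.subtypeEquivRight fun n => ?_)
  exact and_comm

end Pool.Agent.H14.ND
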