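import Pool.Agent.H14.ND.TaoErr

/-!
# The descent theorem: one step, the base range and the induction over scales
-/

set_option autoImplicit false

namespace Pool.Agent.H14.ND

open Finset Pool.Agent.H30 Pool.Agent.H30.PD

open Classical in
/-- Splitting the sum of the multi-step inequality in typical and atypical terms. -/
theorem split_bound {B : ℕ} {C : ℝ} (hC : 0 ≤ C) (H : MultiStep (B + 1) C) (W : Set ℤ) {h b : ℕ}
    (hh : 1 ≤ h) (hb : 1 ≤ b) {s M : ℝ} (hs : (h : ℝ) + b ≤ s) (hM : 0 ≤ M)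
    (hT : ∀ q, Typ b q → F W h (3 ^ q * 2 ^ s / 2 ^ b) ≤ M) :
    F W (h + b) (2 ^ s) ≤ M + 6 * Real.exp (-(32 / 1000000 * b)) +
      b * C * (1 / (h : ℝ) ^ (B + 1) + 2 ^ (h + b) / 2 ^ s) := by
  have hx : (2 : ℝ) ^ (h + b) ≤ 2 ^ s := by
    rw [← Real.rpow_natCast]
    exact Real.rpow_le_rpow_of_exponent_le (by norm_num) (by push_cast; exact hs)
  have h1 := H W h b _ hh hb hx
  have h2 : ∑ q ∈ range (b + 1), bin b q * F W h (3 ^ q * 2 ^ s / 2 ^ b) ≤
      M + 6 * Real.exp (-(32 / 1000000 * b)) := by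
    rw [← Finset.sum_filter_add_sum_filter_not (range (b + 1)) (fun q => Typ b q)]
    refine add_le_add ?_ ?_
    · calc ∑ q ∈ (range (b + 1)).filter (fun q => Typ b q), bin b q * F W h (3 ^ q * 2 ^ s / 2 ^ b)
          ≤ ∑ q ∈ (range (b + 1)).filter (fun q => Typ b q), bin b q * M := by
            refine Finset.sum_le_sum fun q hq => ?_
            exact mul_le_mul_of_nonneg_left (hT q (mem_filter.mp hq).2) (bin_nonneg _ _)
        _ = (∑ q ∈ (range (b + 1)).filter (fun q => Typ b q), bin b q) * M := by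
            rw [Finset.sum_mul]
        _ ≤ 1 * M := by
            refine mul_le_mul_of_nonneg_right ?_ hM
            refine le_trans (Finset.sum_le_sum_of_subset_of_nonneg (filter_subset _ _)
              fun q _ _ => bin_nonneg _ _) (sum_bin_le b (b + 1))
        _ = M := one_mul M
    · calc ∑ q ∈ (range (b + 1)).filter (fun q => ¬ Typ b q), bin b q * F W h (3 ^ q * 2 ^ s / 2 ^ b)
          ≤ ∑ q ∈ (range (b + 1)).filter (fun q => ¬ Typ b q), bin b q * 3 := by
            refine Finset.sum_le_sum fun q hq => ?_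
            refine mul_le_mul_of_nonneg_left (F_le _ _ (y_ge_one ?_)) (bin_nonneg _ _)
            have : (0 : ℝ) ≤ h := by positivity
            linarith
        _ = (∑ q ∈ (range (b + 1)).filter (fun q => ¬ Typ b q), bin b q) * 3 := by
            rw [Finset.sum_mul]
        _ ≤ (2 * Real.exp (-(32 / 1000000 * b))) * 3 :=
            mul_le_mul_of_nonneg_right (atyp_mass hb) (by norm_num)
        _ = 6 * Real.exp (-(32 / 1000000 * b)) := by ring
  linarith

theorem step {B : ℕ} {C : ℝ} (hC : 0 ≤ C) (H : MultiStep (B + 1) C) : ∃ E : ℝ, 0 ≤ E ∧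
    ∀ k s t M : ℝ, 200 ≤ k → 105 / 100 * k ≤ s → 499 / 100 * s ≤ t → 0 ≤ M →
    (∀ s' t' : ℝ, k ≤ s' → s' ≤ 993 / 1000 * s → 499 / 100 * s' ≤ t' → f (2 ^ k) t' (2 ^ s') ≤ M) →
    f (2 ^ k) t (2 ^ s) ≤ M + E / s ^ B := by
  obtain ⟨E, hE, HE⟩ := err_bound hC B
  refine ⟨E, hE, fun k s t M hk hs ht hM hyp => ?_⟩
  have hs0 : 210 ≤ s := by linarith
  obtain ⟨b, hb⟩ : ∃ b : ℕ, b = ⌊4 / 100 * s⌋₊ := ⟨_, rfl⟩
  obtain ⟨h, hh⟩ : ∃ h : ℕ, h = ⌊s / 100⌋₊ := ⟨_, rfl⟩
  have hb1 : (b : ℝ) ≤ 4 / 100 * s := by rw [hb]; exact Nat.floor_le (by linarith)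
  have hb2 : 4 / 100 * s < b + 1 := by rw [hb]; exact Nat.lt_floor_add_one _
  have hh1 : (h : ℝ) ≤ s / 100 := by rw [hh]; exact Nat.floor_le (by linarith)
  have hh2 : s / 100 < h + 1 := by rw [hh]; exact Nat.lt_floor_add_one _
  have hb3 : 1 ≤ b := by
    have : (0 : ℝ) < b := by linarith
    exact_mod_cast this
  have hh3 : 1 ≤ h := by
    have : (0 : ℝ) < h := by linarith
    exact_mod_cast this
  have hK : (0 : ℝ) ≤ 2 ^ k := by positivity
  have h1 := f_le_F (2 ^ k) t (h + b) (x := (2 : ℝ) ^ s) (by positivity)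
  have h2 := split_bound hC H (U (2 ^ k) (t - ((h + b : ℕ) : ℝ))) hh3 hb3 (s := s)
    (M := M + 3 * (2 : ℝ) ^ (-(29 / 1000) * s)) (by linarith) (by positivity) ?_
  · have h3 := HE s (by linarith) b h (by linarith) (by linarith) (by linarith)
    linarith
  · intro q hq
    have hu := typ_upper hq s
    have hl := typ_lower hq s
    have hy1 := y_ge_one (b := b) (q := q) (s := s) (by linarith)
    have h4 := F_le_f (K := 2 ^ k) (t := t - ((h + b : ℕ) : ℝ)) hK h
      (x := 3 ^ q * 2 ^ s / 2 ^ b) (by linarith)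
    have e1 : t - ((h + b : ℕ) : ℝ) + h = t - b := by push_cast; ring
    rw [e1] at h4
    refine h4.trans (add_le_add ?_ ?_)
    · rw [yq_eq]
      exact hyp _ _ (by linarith) (by linarith) (by linarith)
    · have hp : (2 : ℝ) ^ h * 2 ^ k = 2 ^ ((h : ℝ) + k) := by
        rw [Real.rpow_add (by norm_num), Real.rpow_natCast]
      have h5 : (1 : ℝ) ≤ 2 ^ h * 2 ^ k := by
        rw [hp]; exact Real.one_le_rpow (by norm_num) (by positivity)
      calc (2 * ((2 : ℝ) ^ h * 2 ^ k) + 1) / (3 ^ q * 2 ^ s / 2 ^ b)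
          ≤ (3 * ((2 : ℝ) ^ h * 2 ^ k)) / (3 ^ q * 2 ^ s / 2 ^ b) :=
            div_le_div_of_nonneg_right (by linarith) (by linarith)
        _ = 3 * 2 ^ ((h : ℝ) + k - (s - b + q * lam)) := by
            rw [yq_eq, hp, Real.rpow_sub (by norm_num)]; ring
        _ ≤ 3 * 2 ^ (-(29 / 1000) * s) := by
            refine mul_le_mul_of_nonneg_left ?_ (by norm_num)
            refine Real.rpow_le_rpow_of_exponent_le (by norm_num) ?_
            linarith

theorem base {B : ℕ} {C : ℝ} (hC : 0 ≤ C) (H : MultiStep (B + 1) C) : ∃ E : ℝ, 0 ≤ E ∧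
    ∀ k s t : ℝ, 200 ≤ k → k ≤ s → s ≤ 105 / 100 * k → 499 / 100 * s ≤ t →
    f (2 ^ k) t (2 ^ s) ≤ E / s ^ B := by
  obtain ⟨E, hE, HE⟩ := err_bound hC B
  refine ⟨E, hE, fun k s t hk hks hs ht => ?_⟩
  obtain ⟨b, hb⟩ : ∃ b : ℕ, b = ⌊s / 2⌋₊ := ⟨_, rfl⟩
  obtain ⟨h, hh⟩ : ∃ h : ℕ, h = ⌊s / 100⌋₊ := ⟨_, rfl⟩
  have hb1 : (b : ℝ) ≤ s / 2 := by rw [hb]; exact Nat.floor_le (by linarith)
  have hb2 : s / 2 < b + 1 := by rw [hb]; exact Nat.lt_floor_add_one _
  have hh1 : (h : ℝ) ≤ s / 100 := by rw [hh]; exact Nat.floor_le (by linarith)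
  have hh2 : s / 100 < h + 1 := by rw [hh]; exact Nat.lt_floor_add_one _
  have hb3 : 1 ≤ b := by
    have : (0 : ℝ) < b := by linarith
    exact_mod_cast this
  have hh3 : 1 ≤ h := by
    have : (0 : ℝ) < h := by linarith
    exact_mod_cast this
  have h1 := f_le_F (2 ^ k) t (h + b) (x := (2 : ℝ) ^ s) (by positivity)
  have h2 := split_bound hC H (U (2 ^ k) (t - ((h + b : ℕ) : ℝ))) hh3 hb3 (s := s)
    (M := 0) (by linarith) le_rfl ?_
  · have h3 := HE s (by linarith) b h (by linarith) (by linarith) (by linarith)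
    have h4 : (0 : ℝ) ≤ 3 * 2 ^ (-(29 / 1000) * s) := by positivity
    linarith
  · intro q hq
    have hu := typ_upper hq s
    have hy1 := y_ge_one (b := b) (q := q) (s := s) (by linarith)
    refine le_of_eq ?_
    unfold F
    rw [cnt_empty, zero_div]
    intro m hm
    by_contra hcon
    push Not at hcon
    have h5 : (2 : ℝ) ^ k < |((T^[h] m : ℤ) : ℝ)| := U_pos hm (by push_cast; linarith)
    have h6 := iter_upper h m
    have h7 : (3 / 2 : ℝ) ^ h = 2 ^ ((h : ℝ) * (lam - 1)) := by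
      rw [mul_comm, Real.rpow_mul (by norm_num), Real.rpow_sub (by norm_num), two_rpow_lam,
        Real.rpow_one, Real.rpow_natCast]
    have h8 : (3 / 2 : ℝ) ^ h * (|(m : ℝ)| + 1) ≤ 2 ^ k := by
      calc (3 / 2 : ℝ) ^ h * (|(m : ℝ)| + 1) ≤ (3 / 2 : ℝ) ^ h * (2 * (3 ^ q * 2 ^ s / 2 ^ b)) :=
            mul_le_mul_of_nonneg_left (by linarith) (by positivity)
        _ = 2 ^ ((h : ℝ) * (lam - 1) + 1 + (s - b + q * lam)) := by
            rw [yq_eq, h7, Real.rpow_add (by norm_num) (_ + 1), Real.rpow_add (by norm_num) _ 1,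
              Real.rpow_one]
            ring
        _ ≤ 2 ^ k := by
            refine Real.rpow_le_rpow_of_exponent_le (by norm_num) ?_
            have h9 : (h : ℝ) * (lam - 1) ≤ s / 100 * (65 / 41 - 1) :=
              mul_le_mul hh1 (by linarith [lam_upper]) (by linarith [lam_lower]) (by linarith)
            linarith
    linarith

/-- Uniform bound for the proportion of integers staying above `2^k`. -/
theorem uniform {B : ℕ} (hB : 1 ≤ B) {C : ℝ} (hC : 0 ≤ C) (H : MultiStep (B + 1) C) : ∃ E : ℝ, 0 ≤ E ∧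
    ∀ k s t : ℝ, 200 ≤ k → k ≤ s → 499 / 100 * s ≤ t → f (2 ^ k) t (2 ^ s) ≤ E / k ^ B := by
  obtain ⟨E1, hE1, H1⟩ := step hC H
  obtain ⟨E2, hE2, H2⟩ := base hC H
  set E := max E1 E2 with hE
  have hE0 : 0 ≤ E := le_max_of_le_left hE1
  refine ⟨E + 143 * E, by positivity, fun k s t hk hks ht => ?_⟩
  have hk0 : 0 < k := by linarith
  have key : ∀ N : ℕ, ∀ s t : ℝ, k ≤ s → s ≤ N → 499 / 100 * s ≤ t →
      f (2 ^ k) t (2 ^ s) ≤ (E + 143 * E) / k ^ B - 143 * E / s ^ B := by
    intro N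
    induction N with
    | zero =>
      intro s t hks hsN _
      exfalso
      push_cast at hsN
      linarith
    | succ N ih =>
      intro s t hks hsN ht
      have hs0 : 0 < s := by linarith
      have hsB : 0 < s ^ B := by positivity
      have hkB : 0 < k ^ B := by positivity
      have hle : k ^ B ≤ s ^ B := pow_le_pow_left₀ hk0.le hks _
      rcases le_total s (105 / 100 * k) with hcase | hcase
      · have h1 := H2 k s t hk hks hcase ht
        have h2 : E2 / s ^ B ≤ E / k ^ B := by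
          refine div_le_div₀ hE0 (le_max_right _ _) hkB hle
        have h3 : 143 * E / s ^ B ≤ 143 * E / k ^ B :=
          div_le_div_of_nonneg_left (by positivity) hkB hle
        have h4 : (E + 143 * E) / k ^ B = E / k ^ B + 143 * E / k ^ B := by ring
        linarith
      · have hle' : k ^ B ≤ (993 / 1000 * s) ^ B := pow_le_pow_left₀ hk0.le (by linarith) _
        have hsB' : 0 < (993 / 1000 * s) ^ B := by positivity
        have h3 : 143 * E / (993 / 1000 * s) ^ B ≤ 143 * E / k ^ B :=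
          div_le_div_of_nonneg_left (by positivity) hkB hle'
        have h4 : (E + 143 * E) / k ^ B = E / k ^ B + 143 * E / k ^ B := by ring
        have h40 : 0 ≤ E / k ^ B := by positivity
        have h5 := H1 k s t ((E + 143 * E) / k ^ B - 143 * E / (993 / 1000 * s) ^ B) hk hcase ht
          (by linarith) ?_
        · have h6 : E1 / s ^ B ≤ E / s ^ B := div_le_div_of_nonneg_right (le_max_left _ _) hsB.le
          have h7 : E / s ^ B + 143 * E / s ^ B ≤ 143 * E / (993 / 1000 * s) ^ B := by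
            have h8 : (993 / 1000 * s) ^ B ≤ 993 / 1000 * s ^ B := by
              rw [mul_pow]
              refine mul_le_mul_of_nonneg_right ?_ hsB.le
              obtain ⟨B', rfl⟩ := Nat.exists_eq_add_of_le' hB
              rw [pow_succ]
              have : (993 / 1000 : ℝ) ^ B' ≤ 1 := pow_le_one₀ (by norm_num) (by norm_num)
              linarith
            have h9 : 143 * E / (993 / 1000 * s ^ B) ≤ 143 * E / (993 / 1000 * s) ^ B :=
              div_le_div_of_nonneg_left (by positivity) hsB' h8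
            refine le_trans ?_ h9
            rw [← add_div, div_le_div_iff₀ hsB (by positivity)]
            nlinarith [mul_nonneg hE0 hsB.le]
          linarith
        · intro s' t' hks' hs' ht'
          have hs'0 : 0 < s' := by linarith
          have h8 := ih s' t' hks' (by push_cast at hsN; linarith) ht'
          have h9 : 143 * E / (993 / 1000 * s) ^ B ≤ 143 * E / s' ^ B :=
            div_le_div_of_nonneg_left (by positivity) (by positivity)
              (pow_le_pow_left₀ hs'0.le hs' _)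
          linarith
  obtain ⟨N, hN⟩ := exists_nat_ge s
  have h1 := key N s t hks hN ht
  have hs0 : 0 < s := by linarith
  have h2 : 0 ≤ 143 * E / s ^ B := by positivity
  linarith

end Pool.Agent.H14.ND
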