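import Pool.Agent.H14.ND.Soft

/-!
The semigroup generated by `-log 2` and `log (3/2)` is dense, and convergence.
-/

set_option autoImplicit false

namespace Pool.Agent.H14.ND

open Filter Topology Set

/-- `s log 2 = t log (3/2)` with naturals only for `s = t = 0`. -/
lemma indep {s t : ℕ} (h : (t : ℝ) * Real.log (3 / 2) = s * Real.log 2) : t = 0 := by
  have h1 : Real.log ((3 / 2 : ℝ) ^ t) = Real.log ((2 : ℝ) ^ s) := by
    rw [Real.log_pow, Real.log_pow]; exact h
  have h2 : (3 / 2 : ℝ) ^ t = (2 : ℝ) ^ s :=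
    Real.log_injOn_pos (by simp) (by simp) h1
  have h3 : (3 : ℝ) ^ t = (2 : ℝ) ^ (s + t) := by
    rw [div_pow, div_eq_iff (by positivity)] at h2
    rw [h2, pow_add]
  have h4 : (3 : ℕ) ^ t = 2 ^ (s + t) := by exact_mod_cast h3
  rcases Nat.eq_zero_or_pos t with ht | ht
  · exact ht
  · exfalso
    have h5 : ¬ (2 ∣ 3 ^ t) := by
      intro h
      have := (Nat.prime_two.dvd_of_dvd_pow h)
      omega
    apply h5
    rw [h4]
    exact dvd_pow_self 2 (by omega)

/-- small elements of the semigroup: for every `η > 0` there are `s, t` with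
`0 < |t b - s a| < η`. -/
lemma small_elem (η : ℝ) (hη : 0 < η) : ∃ s t : ℕ,
    (t : ℝ) * Real.log (3 / 2) - s * Real.log 2 ≠ 0 ∧
    |(t : ℝ) * Real.log (3 / 2) - s * Real.log 2| < η := by
  set a := Real.log 2
  set b := Real.log (3 / 2)
  have ha : 0 < a := Real.log_pos (by norm_num)
  have hb : 0 < b := log_three_half_pos
  -- Dirichlet approximation of b / a
  obtain ⟨n, hn⟩ := exists_nat_gt (a / η)
  have hn0 : 0 < n := by
    rcases Nat.eq_zero_or_pos n with h | h
    · subst h
      have : 0 < a / η := div_pos ha hη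
      simp at hn; linarith
    · exact h
  obtain ⟨j, k, hk0, hkn, hjk⟩ := Real.exists_int_int_abs_mul_sub_le (b / a) hn0
  have hk : 0 < (k : ℝ) := by exact_mod_cast hk0
  have hba : 0 < b / a := div_pos hb ha
  -- j ≥ 0
  have hj : 0 ≤ j := by
    by_contra hneg
    push Not at hneg
    have h1 : (j : ℝ) ≤ -1 := by exact_mod_cast Int.le_sub_one_iff.2 hneg
    have h2 : 0 < (k : ℝ) * (b / a) := mul_pos hk hba
    have h3 := abs_le.1 hjk
    have h4 : (1 : ℝ) / ((n : ℝ) + 1) < 1 := by
      rw [div_lt_one (by positivity)]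
      have : (0 : ℝ) < n := by exact_mod_cast hn0
      linarith
    have h5 : (b / a) * (k : ℝ) = (k : ℝ) * (b / a) := mul_comm _ _
    nlinarith [h3.2]
  refine ⟨j.toNat, k.toNat, ?_, ?_⟩
  · intro h0
    have hk' : ((k.toNat : ℕ) : ℝ) = k := by
      have := Int.toNat_of_nonneg hk0.le
      exact_mod_cast congrArg (fun z : ℤ => (z : ℝ)) this
    have := indep (s := j.toNat) (t := k.toNat) (by linarith)
    omega
  · have hk' : ((k.toNat : ℕ) : ℝ) = k := by
      have := Int.toNat_of_nonneg hk0.le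
      exact_mod_cast congrArg (fun z : ℤ => (z : ℝ)) this
    have hj' : ((j.toNat : ℕ) : ℝ) = j := by
      have := Int.toNat_of_nonneg hj
      exact_mod_cast congrArg (fun z : ℤ => (z : ℝ)) this
    rw [hk', hj']
    have e : (k : ℝ) * b - j * a = a * ((b / a) * k - j) := by field_simp
    rw [e, abs_mul, abs_of_pos ha]
    have h6 : |(b / a) * (k : ℝ) - j| ≤ 1 / ((n : ℝ) + 1) := by
      rw [mul_comm]; exact_mod_cast hjk
    calc a * |(b / a) * (k : ℝ) - j| ≤ a * (1 / ((n : ℝ) + 1)) := mul_le_mul_of_nonneg_left h6 ha.le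
      _ < η := by
          rw [mul_one_div, div_lt_iff₀ (by positivity)]
          rw [div_lt_iff₀ hη] at hn
          nlinarith

/-- finite nets: for every `η > 0` there is `N` such that every point of `[-a, 0]` is within
`η` of `t b - s a` with `s, t ≤ N`. -/
lemma net (η : ℝ) (hη : 0 < η) : ∃ N : ℕ, ∀ y : ℝ, -(Real.log 2) ≤ y → y ≤ 0 →
    ∃ s t : ℕ, s ≤ N ∧ t ≤ N ∧ |y - ((t : ℝ) * Real.log (3 / 2) - s * Real.log 2)| ≤ η := by
  obtain ⟨s0, t0, h0, h1⟩ := small_elem η hη
  set a := Real.log 2 with ha'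
  set b := Real.log (3 / 2)
  have ha : 0 < a := Real.log_pos (by norm_num)
  set δ := (t0 : ℝ) * b - s0 * a with hδ
  obtain ⟨M, hM⟩ := exists_nat_gt (a / |δ|)
  have hδ0 : 0 < |δ| := abs_pos.2 h0
  refine ⟨(M + 1) * (s0 + t0) + 1, fun y hy0 hy1 => ?_⟩
  rcases lt_or_gt_of_ne h0 with hneg | hpos
  · -- δ < 0 : go down from 0
    have hδ2 : |δ| = -δ := abs_of_neg hneg
    have hq0 : 0 ≤ (-y) / |δ| := div_nonneg (by linarith) hδ0.le
    set n := ⌊(-y) / |δ|⌋₊ with hn
    have hn1 : (n : ℝ) ≤ (-y) / |δ| := Nat.floor_le hq0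
    have hn2 : (-y) / |δ| < n + 1 := Nat.lt_floor_add_one _
    have hnM : n ≤ M := by
      have : (n : ℝ) < M := by
        refine lt_of_le_of_lt hn1 (lt_of_le_of_lt ?_ hM)
        exact div_le_div_of_nonneg_right (by linarith) hδ0.le
      exact_mod_cast this.le
    refine ⟨n * s0, n * t0, ?_, ?_, ?_⟩
    · nlinarith
    · nlinarith
    · have e : ((n * t0 : ℕ) : ℝ) * b - ((n * s0 : ℕ) : ℝ) * a = n * δ := by
        rw [hδ]; push_cast; ring
      rw [e]
      rw [le_div_iff₀ hδ0] at hn1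
      rw [div_lt_iff₀ hδ0] at hn2
      rw [hδ2] at hn1 hn2 h1
      rw [abs_le]
      constructor <;> nlinarith
  · -- δ > 0 : go up from -a
    have hδ2 : |δ| = δ := abs_of_pos hpos
    have hq0 : 0 ≤ (y + a) / |δ| := div_nonneg (by linarith) hδ0.le
    set n := ⌊(y + a) / |δ|⌋₊ with hn
    have hn1 : (n : ℝ) ≤ (y + a) / |δ| := Nat.floor_le hq0
    have hn2 : (y + a) / |δ| < n + 1 := Nat.lt_floor_add_one _
    have hnM : n ≤ M := by
      have : (n : ℝ) < M := by
        refine lt_of_le_of_lt hn1 (lt_of_le_of_lt ?_ hM)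
        exact div_le_div_of_nonneg_right (by linarith) hδ0.le
      exact_mod_cast this.le
    refine ⟨n * s0 + 1, n * t0, ?_, ?_, ?_⟩
    · nlinarith
    · nlinarith
    · have e : ((n * t0 : ℕ) : ℝ) * b - ((n * s0 + 1 : ℕ) : ℝ) * a = n * δ - a := by
        rw [hδ]; push_cast; ring
      rw [e]
      rw [le_div_iff₀ hδ0] at hn1
      rw [div_lt_iff₀ hδ0] at hn2
      rw [hδ2] at hn1 hn2 h1
      rw [abs_le]
      constructor <;> nlinarith

/-- **Convergence.** -/
theorem converge {h : ℝ → ℝ} {C v0 : ℝ} (hC : 0 ≤ C)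
    (h0 : ∀ v, 0 ≤ h v) (hb : ∀ v, h v ≤ 1)
    (hlip : ∀ v w, v0 ≤ v → v0 ≤ w → |h w - h v| ≤ 2 * |w - v| + 2 * Real.exp (- v) + 2 * Real.exp (- w))
    (hrec : ∀ v, v0 ≤ v →
      |h v - (h (v - Real.log 2) + h (v + Real.log (3 / 2))) / 2| ≤ C / v ^ 2) :
    ∃ m, Tendsto h atTop (𝓝 m) := by
  set a := Real.log 2 with ha'
  set b := Real.log (3 / 2) with hb'
  have ha : 0 < a := Real.log_pos (by norm_num)
  have hb0 : 0 < b := log_three_half_pos
  have hab : b < a := log_lt
  set m := liminf h atTop with hm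
  have hbdd : IsBoundedUnder (· ≥ ·) atTop h := ⟨0, Filter.eventually_map.2 (Eventually.of_forall h0)⟩
  have hcob : IsCoboundedUnder (· ≥ ·) atTop h :=
    (show IsBoundedUnder (· ≤ ·) atTop h from ⟨1, Filter.eventually_map.2 (Eventually.of_forall hb)⟩).isCoboundedUnder_ge
  have hlow : ∀ ε > 0, ∀ᶠ v in atTop, m - ε < h v := fun ε hε =>
    eventually_lt_of_lt_liminf (by linarith) hbdd
  have hfreq : ∀ ε > 0, ∃ᶠ v in atTop, h v < m + ε := fun ε hε =>
    frequently_lt_of_liminf_lt hcob (by linarith)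
  -- a sequence realising the liminf
  have hseq : ∀ n : ℕ, ∃ v : ℝ, (n : ℝ) ≤ v ∧ h v < m + 1 / (n + 1) := by
    intro n
    have := (hfreq (1 / ((n : ℝ) + 1)) (by positivity)).and_eventually (eventually_ge_atTop (n : ℝ))
    obtain ⟨v, hv1, hv2⟩ := this.exists
    exact ⟨v, hv2, hv1⟩
  choose vs hvs1 hvs2 using hseq
  have hvs : Tendsto vs atTop atTop := tendsto_atTop_mono hvs1 tendsto_natCast_atTop_atTop
  have key0 : ∀ c : ℝ, (∀ ε > 0, ∀ᶠ n in atTop, h (vs n + c) < m + ε) →
      (∀ ε > 0, ∀ᶠ n in atTop, h (vs n + (c - a)) < m + ε) ∧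
      (∀ ε > 0, ∀ᶠ n in atTop, h (vs n + (c + b)) < m + ε) := by
    intro c hc
    have hsh : ∀ d : ℝ, Tendsto (fun n => vs n + d) atTop atTop := fun d =>
      tendsto_atTop_add_const_right _ _ hvs
    have hCe : ∀ ε > 0, ∀ᶠ n in atTop, C / (vs n + c) ^ 2 < ε := by
      intro ε hε
      have h1 : Tendsto (fun n => C / (vs n + c) ^ 2) atTop (𝓝 0) := by
        apply Tendsto.div_atTop tendsto_const_nhds
        exact (tendsto_pow_atTop (by norm_num)).comp (hsh c)
      exact (h1.eventually (gt_mem_nhds hε))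
    constructor
    · intro ε hε
      filter_upwards [hc (ε / 8) (by positivity), hCe (ε / 8) (by positivity),
        (hsh (c + b)).eventually (hlow (ε / 8) (by positivity)),
        (hsh c).eventually (eventually_ge_atTop v0)] with n h1 h2 h3 h4
      have h5 := abs_le.1 (hrec _ h4)
      rw [show vs n + c - a = vs n + (c - a) by ring, show vs n + c + b = vs n + (c + b) by ring] at h5
      linarith [h5.1]
    · intro ε hε
      filter_upwards [hc (ε / 8) (by positivity), hCe (ε / 8) (by positivity),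
        (hsh (c - a)).eventually (hlow (ε / 8) (by positivity)),
        (hsh c).eventually (eventually_ge_atTop v0)] with n h1 h2 h3 h4
      have h5 := abs_le.1 (hrec _ h4)
      rw [show vs n + c - a = vs n + (c - a) by ring, show vs n + c + b = vs n + (c + b) by ring] at h5
      linarith [h5.1]
  have hbase : ∀ ε > 0, ∀ᶠ n in atTop, h (vs n + 0) < m + ε := by
    intro ε hε
    have h1 : Tendsto (fun n : ℕ => 1 / ((n : ℝ) + 1)) atTop (𝓝 0) := tendsto_one_div_add_atTop_nhds_zero_nat
    filter_upwards [h1.eventually (gt_mem_nhds hε)] with n hn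
    rw [add_zero]
    linarith [hvs2 n]
  have key1 : ∀ t : ℕ, ∀ ε > 0, ∀ᶠ n in atTop, h (vs n + (t : ℝ) * b) < m + ε := by
    intro t
    induction t with
    | zero => simpa using hbase
    | succ t ih =>
      have := (key0 _ ih).2
      have e : (t : ℝ) * b + b = ((t + 1 : ℕ) : ℝ) * b := by push_cast; ring
      rwa [e] at this
  have key2 : ∀ t s : ℕ, ∀ ε > 0, ∀ᶠ n in atTop, h (vs n + ((t : ℝ) * b - s * a)) < m + ε := by
    intro t s
    induction s with
    | zero => simpa using key1 t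
    | succ s ih =>
      have := (key0 _ ih).1
      have e : (t : ℝ) * b - s * a - a = (t : ℝ) * b - ((s + 1 : ℕ) : ℝ) * a := by push_cast; ring
      rwa [e] at this
  -- good windows
  have hwindow : ∀ η > 0, ∀ V : ℝ, ∃ w, V ≤ w ∧ ∀ v, w - a ≤ v → v ≤ w → h v ≤ m + η := by
    intro η hη V
    obtain ⟨N, hN⟩ := net (η / 8) (by positivity)
    have h1 : ∀ᶠ n in atTop, ∀ t ∈ Finset.range (N + 1), ∀ s ∈ Finset.range (N + 1),
        h (vs n + ((t : ℝ) * b - s * a)) < m + η / 4 := by
      rw [Filter.eventually_all_finset]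
      intro t _
      rw [Filter.eventually_all_finset]
      intro s _
      exact key2 t s _ (by positivity)
    have hexp : ∀ᶠ n in atTop, 4 * Real.exp (-(vs n - a - η - N * a)) < η / 4 := by
      have h2 : Tendsto (fun n => 4 * Real.exp (-(vs n - a - η - N * a))) atTop (𝓝 (4 * 0)) := by
        apply Tendsto.const_mul
        apply Real.tendsto_exp_neg_atTop_nhds_zero.comp
        have : (fun n => vs n - a - η - N * a) = fun n => vs n + (- a - η - N * a) := by ext n; ring
        rw [this]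
        exact tendsto_atTop_add_const_right _ _ hvs
      rw [mul_zero] at h2
      exact h2.eventually (gt_mem_nhds (by positivity))
    have hv0 : ∀ᶠ n in atTop, v0 + a + η + N * a ≤ vs n := hvs.eventually (eventually_ge_atTop _)
    have hV : ∀ᶠ n in atTop, V ≤ vs n := hvs.eventually (eventually_ge_atTop _)
    obtain ⟨n, hn1, hn2, hn3, hn4⟩ := (h1.and (hexp.and (hv0.and hV))).exists
    refine ⟨vs n, hn4, fun v hv1 hv2 => ?_⟩
    obtain ⟨s, t, hs, ht, hst⟩ := hN (v - vs n) (by linarith) (by linarith)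
    have h3 := hn1 t (Finset.mem_range.2 (by omega)) s (Finset.mem_range.2 (by omega))
    set u := vs n + ((t : ℝ) * b - s * a) with hu
    have hsa : (s : ℝ) * a ≤ N * a := mul_le_mul_of_nonneg_right (by exact_mod_cast hs) ha.le
    have htb : 0 ≤ (t : ℝ) * b := by positivity
    have hNa : 0 ≤ (N : ℝ) * a := by positivity
    have hu0 : vs n - N * a ≤ u := by rw [hu]; linarith
    have h4 := hlip u v (by linarith) (by linarith)
    have h5 : |v - u| ≤ η / 8 := by
      rw [hu, show v - (vs n + ((t : ℝ) * b - s * a)) = v - vs n - ((t : ℝ) * b - s * a) by ring]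
      exact hst
    have h6 : Real.exp (-u) ≤ Real.exp (-(vs n - a - η - N * a)) := Real.exp_le_exp.2 (by linarith)
    have h7 : Real.exp (-v) ≤ Real.exp (-(vs n - a - η - N * a)) := Real.exp_le_exp.2 (by linarith)
    have h8 := (abs_le.1 h4).2
    linarith
  -- conclusion
  refine ⟨m, ?_⟩
  rw [Metric.tendsto_nhds]
  intro ε hε
  have hm0 : 0 ≤ m := by
    by_contra hneg
    push Not at hneg
    obtain ⟨v, hv⟩ := (hfreq (-m) (by linarith)).exists
    have := h0 v
    linarith
  -- choose the window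
  set K := 2 * C / (a - b) with hK
  have hK0 : 0 ≤ K := div_nonneg (by linarith) (by linarith)
  obtain ⟨w, hw1, hw2⟩ := hwindow (ε / 4) (by positivity) (max (max v0 (2 * a)) (a + 1 + 4 * K / ε))
  have hwv0 : v0 ≤ w := le_trans (le_trans (le_max_left _ _) (le_max_left _ _)) hw1
  have hw2a : 2 * a ≤ w := le_trans (le_trans (le_max_right _ _) (le_max_left _ _)) hw1
  have hwK : a + 1 + 4 * K / ε ≤ w := le_trans (le_max_right _ _) hw1
  have hup : ∀ v, w ≤ v → h v ≤ m + ε / 4 + K / (w - a) := by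
    apply max_principle hC hw2a hb (by positivity) ?_ hw2
    intro v hv
    have := (abs_le.1 (hrec v (by linarith))).2
    linarith
  have hKw : K / (w - a) ≤ ε / 4 := by
    rw [div_le_iff₀ (by linarith)]
    have h1 : 4 * K / ε ≤ w - a := by linarith
    rw [div_le_iff₀ hε] at h1
    linarith
  filter_upwards [hlow (ε / 2) (by positivity), eventually_ge_atTop w] with v hv1 hv2
  rw [Real.dist_eq, abs_lt]
  have := hup v hv2
  constructor <;> linarith

end Pool.Agent.H14.ND
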